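import Pool.Agent.U136.DS.Gen
import Pool.Agent.U411.DS.AED
import Pool.Agent.U981.EU.SLAB
import Pool.Agent.U324.EU.VEC
import Pool.Agent.U473.EU.CNT

set_option autoImplicit false

/-! Project DS: generic differential operators of odd order `d ≥ 9`. -/

namespace Pool.Agent.U136.DS

open MeasureTheory Pool.Agent.N983.RT Pool.Agent.U29.EU

theorem gen' (d : ℕ) (hd : Odd d) (h9 : 9 ≤ d) (lam : Wv → ℝ) (hlam : Disp lam) :
    ∀ᵐ c : Mi d → ℝ, ∀ ν ε : ℝ, 0 < ν → ε ≠ 0 → GWPD ν (fun k => ε * (lam k + pol c k)) :=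
  gen Pool.Agent.U981.EU.SLAB.t_SLAB Pool.Agent.U324.EU.VEC.t_VEC Pool.Agent.U473.EU.CNT.t_CNT
    Pool.Agent.U411.DS.t_AED d hd h9 lam hlam

end Pool.Agent.U136.DS
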