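import Pool.Agent.U136.DS.Stm
import Pool.Agent.N983.RT.Asm2

set_option autoImplicit false

/-! Project DS: assembly of the proof from its parts. -/

namespace Pool.Agent.U136.DS

open MeasureTheory ProbabilityTheory Pool.Agent.N983.RT

/-- the deterministic criterion -/
theorem critD (hSUM : S_SUM) (hALG : S_ALG) (hEST : S_EST) (hRHS : S_RHS) (hODE : S_ODED)
    (hCMP : S_CMPD) (hUNQ : S_UNQD) (hS3 : S_S3) (hS4 : S_S4) (hQB : S_QB) (hRB : S_RB)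
    (hDQ : S_DQ) (hNB : S_NB) (hAPR : S_APRD) (ν : ℝ) (lam : Wv → ℝ) (c₁ τ θ B : ℝ) (hν : 0 < ν)
    (hlam : Disp lam) (hc : 0 < c₁) (hτ : 3 < τ) (hτ' : τ < 4) (hθ : 0 ≤ θ) (hθ' : θ < 2)
    (hdeg : Deg lam c₁ τ θ B) : GWPD ν lam := by
  intro u₀ hA hR
  have hest : ∀ s : ℕ, 2 ≤ s → ∀ M ε : ℝ, 0 < ε → ∃ C : ℝ, ∀ (n : ℕ) (u : Fld), Adm u →
      (∀ k, k ∉ cub n → u k = 0) → En 0 n u ≤ M →
        ‖form (hnf lam c₁ τ) s n u‖ ≤ ε * En s n u + C ∧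
        ‖dform (hnf lam c₁ τ) s n u (rhs (cutg n one) ν 1 u)‖ ≤ ε * Er ((s : ℝ) + 1) n u + C ∧
        ‖form (near lam c₁ τ) s n u‖ ≤ ε * Er ((s : ℝ) + 1) n u + C := by
    intro s hs M ε hε
    obtain ⟨C₁, h1⟩ := hQB hS3 lam c₁ τ hc hτ hτ' s hs M ε hε
    obtain ⟨C₂, h2⟩ := hRB hS3 hS4 lam c₁ τ ν hc hτ hτ' hν s hs M ε hε
    obtain ⟨C₃, h3⟩ := hNB hEST lam c₁ τ θ B hc hlam hθ hθ' hdeg s M ε hε
    refine ⟨max C₁ (max C₂ C₃), fun n u hu hn hM => ⟨?_, ?_, ?_⟩⟩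
    · exact (h1 n u hu hn hM).trans (by linarith [le_max_left C₁ (max C₂ C₃)])
    · exact (h2 n u hu hn hM).trans
        (by linarith [(le_max_left C₂ C₃).trans (le_max_right C₁ (max C₂ C₃))])
    · exact (h3 n u hu hn hM).trans
        (by linarith [(le_max_right C₂ C₃).trans (le_max_right C₁ (max C₂ C₃))])
  have h1 : ∀ n : ℕ, ∃ u : ℝ → Fld, IsSolD (cutg n one) ν lam u ∧ u 0 = cut n u₀ ∧
      ∀ t, 0 ≤ t → ∀ k, k ∉ cub n → u t k = 0 :=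
    fun n => hODE hALG ν lam n hν hlam u₀ hA
  choose U hUsol hU0 hUcub using h1
  have hbd : ∀ (T : ℝ) (s : ℕ), ∃ C : ℝ, ∀ n t, 0 ≤ t → t ≤ T → ∀ k i,
      (1 + nsq k) ^ s * ‖U n t k i‖ ≤ C := by
    intro T s
    obtain ⟨C₀, hC₀⟩ := hAPR hSUM hALG ν lam c₁ τ hν hlam hc hest hDQ u₀ hA hR 0 T
    obtain ⟨C₁, hC₁⟩ := hAPR hSUM hALG ν lam c₁ τ hν hlam hc hest hDQ u₀ hA hR (2 * s) T
    refine ⟨Real.sqrt (2 ^ (2 * s) * (C₀ + C₁)), fun n t ht hT k i => ?_⟩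
    exact asm_pt n s (U n t) (hUcub n t ht) C₀ C₁
      (hC₀ n (U n) (hUsol n) (hU0 n) (hUcub n) t ht hT)
      (hC₁ n (U n) (hUsol n) (hU0 n) (hUcub n) t ht hT) k i
  obtain ⟨u, hu, hu0⟩ := hCMP hSUM hRHS ν lam hν hlam u₀ hA hR U hUsol hU0 hbd
  exact ⟨u, hu, hu0, fun v hv hv0 t ht => hUNQ hSUM ν lam hν hlam v u hv hu (by rw [hv0, hu0]) t ht⟩

/-- amplitudes -/
theorem deg_smul (lam : Wv → ℝ) (τ θ B ε : ℝ) (hε : ε ≠ 0) (h : Deg lam 1 τ θ B) :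
    Deg (fun k => ε * lam k) |ε| τ θ B := by
  have h0 : 0 < |ε| := abs_pos.2 hε
  have h1 : ∀ k l m, near (fun k => ε * lam k) |ε| τ k l m = near lam 1 τ k l m := by
    intro k l m
    unfold near
    have e1 : (|ε * lam k + ε * lam l + ε * lam m| < |ε| * mx k l m ^ (τ / 2)) =
        (|lam k + lam l + lam m| < 1 * mx k l m ^ (τ / 2)) := by
      rw [show ε * lam k + ε * lam l + ε * lam m = ε * (lam k + lam l + lam m) by ring, abs_mul,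
        one_mul]
      exact propext (mul_lt_mul_iff_right₀ h0)
    simp only [e1]
  intro R hR m hm
  simp only [h1]
  exact h R hR m hm

theorem disp_smul (lam : Wv → ℝ) (ε : ℝ) (h : Disp lam) : Disp (fun k => ε * lam k) := by
  obtain ⟨h1, q, C, h2⟩ := h
  refine ⟨fun k => by simp only [h1 k]; ring, q, |ε| * C, fun k => ?_⟩
  rw [abs_mul, mul_assoc]
  exact mul_le_mul_of_nonneg_left (h2 k) (abs_nonneg _)

theorem disp_rlam {Ω : Type} (σ : ℝ) (hσ : 0 < σ) (e : Wv → ℝ) (he : Sgn e)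
    (Z : Sym2 Wv → Ω → ℝ) (ω : Ω) (D : ℝ) (hZ : ∀ c, |Z c ω| ≤ D) : Disp (rlam σ e Z ω) := by
  constructor
  · intro k
    unfold rlam
    by_cases hk : k = 0
    · subst hk
      have : nsq (0 : Wv) ^ (σ / 2) = 0 := by
        have h0 : nsq (0 : Wv) = 0 := by simp [nsq]
        rw [h0]
        exact Real.zero_rpow (by positivity)
      simp [this]
    · rw [(he k hk).1, asm_nsq_neg, neg_neg, Sym2.eq_swap]
      ring
  · refine ⟨⌈σ / 2⌉₊, D, fun k => ?_⟩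
    have hD : 0 ≤ D := (abs_nonneg _).trans (hZ s(k, -k))
    have hn := asm_nsq_nonneg k
    have hpow : nsq k ^ (σ / 2) ≤ (1 + nsq k) ^ ⌈σ / 2⌉₊ := by
      calc nsq k ^ (σ / 2) ≤ (1 + nsq k) ^ (σ / 2) :=
            Real.rpow_le_rpow hn (by linarith) (by positivity)
        _ ≤ (1 + nsq k) ^ ((⌈σ / 2⌉₊ : ℕ) : ℝ) :=
            Real.rpow_le_rpow_of_exponent_le (by linarith) (Nat.le_ceil _)
        _ = (1 + nsq k) ^ ⌈σ / 2⌉₊ := Real.rpow_natCast _ _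
    have hek : |e k * nsq k ^ (σ / 2)| ≤ (1 + nsq k) ^ ⌈σ / 2⌉₊ := by
      by_cases hk : k = 0
      · subst hk
        have : nsq (0 : Wv) ^ (σ / 2) = 0 := by
          have h0 : nsq (0 : Wv) = 0 := by simp [nsq]
          rw [h0]
          exact Real.zero_rpow (by positivity)
        rw [this, mul_zero, abs_zero]
        positivity
      · rw [abs_mul, (he k hk).2, one_mul, abs_of_nonneg (Real.rpow_nonneg hn _)]
        exact hpow
    unfold rlam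
    rw [abs_mul, mul_comm]
    exact mul_le_mul (hZ _) hek (abs_nonneg _) hD

/-- random dispersion -/
theorem asmD (hSUM : S_SUM) (hALG : S_ALG) (hEST : S_EST) (hRHS : S_RHS) (hODE : S_ODED)
    (hCMP : S_CMPD) (hUNQ : S_UNQD) (hS3 : S_S3) (hS4 : S_S4) (hQB : S_QB) (hRB : S_RB)
    (hDQ : S_DQ) (hNB : S_NB) (hAPR : S_APRD) (hIND : S_IND2) (hPRB : S_PRB) (hESY : S_ESY)
    (hLAT : S_LAT2) (hTLD : S_TLD) (hDEG : S_DEG) (σ : ℝ) (hσ : 4 < σ)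
    (Ω : Type) [MeasurableSpace Ω] (μ : Measure Ω) [IsProbabilityMeasure μ]
    (Z : Sym2 Wv → Ω → ℝ) (e : Wv → ℝ) (hZ : ∀ c, Measurable (Z c)) (hi : iIndepFun Z μ)
    (he : Sgn e) (D D' : ℝ) (hD : Dens μ Z D) (hb : ∀ c, ∀ᵐ ω ∂μ, |Z c ω| ≤ D') :
    ∀ᵐ ω ∂μ, ∀ ν ε : ℝ, 0 < ν → ε ≠ 0 → GWPD ν (fun k => ε * rlam σ e Z ω k) := by
  -- exponents
  set τ : ℝ := min (7 / 2) (3 + (σ - 4) / 2) with hτ
  have h1 : 3 < τ := lt_min (by norm_num) (by linarith)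
  have h2 : τ < 4 := lt_of_le_of_lt (min_le_left _ _) (by norm_num)
  have h3 : τ ≤ 3 + (σ - 4) / 2 := min_le_right _ _
  set θ : ℝ := max 1 (2 - (σ - 4) / 4) with hθ
  have h4 : 1 ≤ θ := le_max_left _ _
  have h5 : θ < 2 := max_lt (by norm_num) (by linarith)
  have h6 : 2 - (σ - 4) / 4 ≤ θ := le_max_right _ _
  have hD2 : Dens μ Z (max D 0) := by
    intro c x h hh
    refine (hD c x h hh).trans (ENNReal.ofReal_le_ofReal ?_)
    exact mul_le_mul_of_nonneg_right (le_max_left _ _) hh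
  have hdeg := hDEG hIND hPRB hESY hLAT hTLD (max D 0) σ τ θ (le_max_right _ _) (by linarith)
    (by linarith) (by linarith) (by linarith) (by linarith) Ω μ Z e hZ hi he hD2
  filter_upwards [hdeg, ae_all_iff.2 hb] with ω h7 h8
  obtain ⟨B, hB⟩ := h7
  intro ν ε hν hε
  exact critD hSUM hALG hEST hRHS hODE hCMP hUNQ hS3 hS4 hQB hRB hDQ hNB hAPR ν _ |ε| τ θ B hν
    (disp_smul _ ε (disp_rlam σ (by linarith) e he Z ω D' h8)) (abs_pos.2 hε) h1 h2 (by linarith) h5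
    (deg_smul _ τ θ B ε hε hB)

end Pool.Agent.U136.DS
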