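import Pool.Agent.U136.DS.Stm
import Pool.Agent.U136.RT.CMP

set_option autoImplicit false

/-! Passage to the limit in the truncated systems with dispersion, along an ultrafilter. -/

namespace Pool.Agent.U136.DS

open Pool.Agent.N983.RT Pool.Agent.U136.RT Filter Topology Set

/-- bounds for the right-hand side -/
theorem rhsD_bds (hSUM : S_SUM) (hRHS : S_RHS) (ν : ℝ) (lam : Wv → ℝ) (hl : Disp lam) (Cs : ℕ → ℝ) :
    (∀ p : ℕ, ∃ D : ℝ, ∀ g : Wv → Wv → Wv → ℝ, (∀ k l m, |g k l m| ≤ 1) → ∀ u : Fld, Dcy Cs u →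
      ∀ m, m ≠ 0 → ∀ j, (1 + nsq m) ^ p * ‖rhsD g ν lam u m j‖ ≤ D) ∧
    ∀ m, m ≠ 0 → ∃ D : ℝ, ∀ g : Wv → Wv → Wv → ℝ, (∀ k l m, |g k l m| ≤ 1) → ∀ u v : Fld,
      Dcy Cs u → Dcy Cs v → ∀ δ : ℝ, (∀ k i, (1 + nsq k) ^ 3 * ‖u k i - v k i‖ ≤ δ) →
        ∀ j, ‖rhsD g ν lam u m j - rhsD g ν lam v m j‖ ≤ D * δ := by
  obtain ⟨-, q, C, hC⟩ := hl
  obtain ⟨hP1, hP2⟩ := hRHS hSUM ν 1 Cs
  have hC0 : 0 ≤ C := by
    have h1 := hC 0
    have h2 : 0 < (1 + nsq (0 : Wv)) ^ q := by
      have := nsq_nn (0 : Wv)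
      positivity
    by_contra h
    push Not at h
    have h3 : C * (1 + nsq (0 : Wv)) ^ q < 0 := mul_neg_of_neg_of_pos h h2
    linarith [abs_nonneg (lam 0)]
  constructor
  · intro p
    obtain ⟨D, hD⟩ := hP1 p
    refine ⟨D + C * Cs (p + q), fun g hg u hu m hm j => ?_⟩
    have h1 := hD g hg u hu m hm j
    have hn := nsq_nn m
    have h2 : (1 + nsq m) ^ p * ‖Complex.I * (lam m : ℂ) * u m j‖ ≤ C * Cs (p + q) := by
      rw [norm_mul, norm_mul, Complex.norm_I, one_mul, Complex.norm_real, Real.norm_eq_abs]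
      calc (1 + nsq m) ^ p * (|lam m| * ‖u m j‖)
          ≤ (1 + nsq m) ^ p * (C * (1 + nsq m) ^ q * ‖u m j‖) := by
            gcongr
            exact hC m
        _ = C * ((1 + nsq m) ^ (p + q) * ‖u m j‖) := by rw [pow_add]; ring
        _ ≤ C * Cs (p + q) := mul_le_mul_of_nonneg_left (hu (p + q) m j) hC0
    unfold rhsD
    calc (1 + nsq m) ^ p * ‖rhs g ν 1 u m j - Complex.I * (lam m : ℂ) * u m j‖
        ≤ (1 + nsq m) ^ p * (‖rhs g ν 1 u m j‖ + ‖Complex.I * (lam m : ℂ) * u m j‖) :=
          mul_le_mul_of_nonneg_left (norm_sub_le _ _) (by positivity)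
      _ ≤ D + C * Cs (p + q) := by rw [mul_add]; exact add_le_add h1 h2
  · intro m hm
    obtain ⟨D, hD⟩ := hP2 m hm
    refine ⟨D + |lam m|, fun g hg u v hu hv δ hδ j => ?_⟩
    have h1 := hD g hg u v hu hv δ hδ j
    have hn := nsq_nn m
    have h2 : ‖u m j - v m j‖ ≤ δ := by
      refine le_trans ?_ (hδ m j)
      have h3 : 1 ≤ (1 + nsq m) ^ 3 := one_le_pow₀ (by linarith)
      exact le_mul_of_one_le_left (norm_nonneg _) h3
    unfold rhsD
    calc ‖rhs g ν 1 u m j - Complex.I * (lam m : ℂ) * u m j -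
          (rhs g ν 1 v m j - Complex.I * (lam m : ℂ) * v m j)‖
        = ‖(rhs g ν 1 u m j - rhs g ν 1 v m j) - Complex.I * (lam m : ℂ) * (u m j - v m j)‖ := by
          congr 1; ring
      _ ≤ ‖rhs g ν 1 u m j - rhs g ν 1 v m j‖ + ‖Complex.I * (lam m : ℂ) * (u m j - v m j)‖ :=
          norm_sub_le _ _
      _ ≤ D * δ + |lam m| * δ := by
          refine add_le_add h1 ?_
          rw [norm_mul, norm_mul, Complex.norm_I, one_mul, Complex.norm_real, Real.norm_eq_abs]
          exact mul_le_mul_of_nonneg_left h2 (abs_nonneg _)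
      _ = (D + |lam m|) * δ := by ring

theorem one_le (k l m : Wv) : |one k l m| ≤ 1 := by simp [one]

theorem t_CMPD : S_CMPD := by
  intro hSUM hRHS ν lam hν hlam u₀ hA hR U hU hU0 hbd
  classical
  let F : Ultrafilter ℕ := Filter.hyperfilter ℕ
  have hF : (F : Filter ℕ) ≤ atTop := Nat.hyperfilter_le_atTop
  have hlim0 : ∀ t, 0 ≤ t → ∀ k i, ∃ z : ℂ, Tendsto (fun n => U n t k i) F (𝓝 z) := by
    intro t ht k i
    obtain ⟨C, hC⟩ := hbd t 0
    have hb : ∀ n, U n t k i ∈ Metric.closedBall (0 : ℂ) C := by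
      intro n
      have := hC n t ht le_rfl k i
      simpa using this
    have hc : IsCompact (Metric.closedBall (0 : ℂ) C) := isCompact_closedBall _ _
    obtain ⟨z, -, hz2⟩ := hc.ultrafilter_le_nhds (F.map (fun n => U n t k i)) (by
      rw [Ultrafilter.coe_map, le_principal_iff, mem_map]
      exact Filter.univ_mem' hb)
    exact ⟨z, hz2⟩
  choose lim hlim using hlim0
  set u : ℝ → Fld := fun t => if ht : 0 ≤ t then fun k i => lim t ht k i else u₀ with hu
  have hut : ∀ t (ht : 0 ≤ t) k i, Tendsto (fun n => U n t k i) F (𝓝 (u t k i)) := by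
    intro t ht k i
    have : u t k i = lim t ht k i := by
      simp only [hu]
      rw [dif_pos ht]
    rw [this]
    exact hlim t ht k i
  have hAdm : ∀ t, 0 ≤ t → Adm (u t) := by
    intro t ht
    refine ⟨?_, ?_, ?_⟩
    · funext i
      refine tendsto_nhds_unique (hut t ht 0 i) ?_
      have : (fun n => U n t 0 i) = fun _ => 0 := by
        funext n
        rw [((hU n).adm t ht).zero]
        rfl
      rw [this]
      exact tendsto_const_nhds
    · intro k
      refine tendsto_nhds_unique (f := fun n => dt (U n t k) k) (l := (F : Filter ℕ)) ?_ ?_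
      · unfold dt
        exact tendsto_finsetSum _ fun i _ => (hut t ht k i).mul_const _
      · have : (fun n => dt (U n t k) k) = fun _ => 0 := by
          funext n
          exact ((hU n).adm t ht).div k
        rw [this]
        exact tendsto_const_nhds
    · intro k i
      refine tendsto_nhds_unique (hut t ht (-k) i) ?_
      have : (fun n => U n t (-k) i) = fun n => (starRingEnd ℂ) (U n t k i) := by
        funext n
        exact ((hU n).adm t ht).real k i
      rw [this]
      exact (Complex.continuous_conj.tendsto _).comp (hut t ht k i)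
  have hdec : ∀ (T : ℝ) (s : ℕ) (C : ℝ), (∀ n t, 0 ≤ t → t ≤ T → ∀ k i,
      (1 + nsq k) ^ s * ‖U n t k i‖ ≤ C) → ∀ t, 0 ≤ t → t ≤ T → ∀ k i,
      (1 + nsq k) ^ s * ‖u t k i‖ ≤ C := by
    intro T s C hC t ht htT k i
    refine le_of_tendsto (((hut t ht k i).norm).const_mul _) ?_
    exact Eventually.of_forall fun n => hC n t ht htT k i
  have hzero : u 0 = u₀ := by
    funext k i
    refine tendsto_nhds_unique (hut 0 le_rfl k i) ?_
    refine tendsto_const_nhds.congr' ?_
    filter_upwards [hF (eventually_cub k)] with n hn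
    rw [hU0 n]
    unfold cut
    rw [if_pos hn]
  refine ⟨u, ⟨hAdm, ?_, ?_⟩, hzero⟩
  · intro T s
    obtain ⟨C, hC⟩ := hbd T s
    exact ⟨C, hdec T s C hC⟩
  · intro t ht m hm j
    have hb2 : ∀ s : ℕ, ∃ C : ℝ, ∀ n τ, 0 ≤ τ → τ ≤ t + 1 → ∀ k i,
      (1 + nsq k) ^ s * ‖U n τ k i‖ ≤ C := fun s => hbd (t + 1) s
    choose Cs hCs using hb2
    have hD : ∀ n τ, 0 ≤ τ → τ ≤ t + 1 → Dcy Cs (U n τ) := fun n τ h1 h2 s k i =>
      hCs s n τ h1 h2 k i
    obtain ⟨hP1, hP2⟩ := rhsD_bds hSUM hRHS ν lam hlam Cs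
    obtain ⟨D1, hD1⟩ := hP1 3
    obtain ⟨D2, hD2⟩ := hP2 m hm
    have hgn : ∀ n k l m, |cutg n one k l m| ≤ 1 := fun n => cutg_le one_le n
    -- Lipschitz in time
    have hlip : ∀ n τ, 0 ≤ τ → τ ≤ t + 1 → ∀ k i,
        (1 + nsq k) ^ 3 * ‖U n τ k i - U n t k i‖ ≤ |D1| * |τ - t| := by
      intro n τ h1 h2 k i
      by_cases hk : k = 0
      · subst hk
        rw [((hU n).adm τ h1).zero, ((hU n).adm t ht).zero]
        simp only [Pi.zero_apply, sub_self, norm_zero, mul_zero]
        positivity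
      · have hpos : 0 < (1 + nsq k) ^ 3 := by
          have := nsq_nn k
          positivity
        have hder : ∀ x ∈ Icc 0 (t + 1), HasDerivWithinAt (fun τ => U n τ k i)
            (rhsD (cutg n one) ν lam (U n x) k i) (Icc 0 (t + 1)) x := fun x hx =>
          ((hU n).eqn x hx.1 k hk i).mono Icc_subset_Ici_self
        have hbn : ∀ x ∈ Icc 0 (t + 1), ‖rhsD (cutg n one) ν lam (U n x) k i‖ ≤
            |D1| / (1 + nsq k) ^ 3 := by
          intro x hx
          rw [le_div_iff₀ hpos, mul_comm]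
          exact (hD1 (cutg n one) (hgn n) (U n x) (hD n x hx.1 hx.2) k hk i).trans (le_abs_self _)
        have h3 := (convex_Icc (0 : ℝ) (t + 1)).norm_image_sub_le_of_norm_hasDerivWithin_le
          hder hbn (x := t) (y := τ) ⟨ht, by linarith⟩ ⟨h1, h2⟩
        calc (1 + nsq k) ^ 3 * ‖U n τ k i - U n t k i‖
            ≤ (1 + nsq k) ^ 3 * (|D1| / (1 + nsq k) ^ 3 * ‖τ - t‖) :=
              mul_le_mul_of_nonneg_left h3 hpos.le
          _ = |D1| * |τ - t| := by
              rw [Real.norm_eq_abs, ← mul_assoc, mul_div_cancel₀ _ hpos.ne']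
    -- second order
    have hsec : ∀ n y, 0 ≤ y → y ≤ t + 1 → ‖U n y m j - U n t m j -
        ((y - t : ℝ) : ℂ) * rhsD (cutg n one) ν lam (U n t) m j‖ ≤ |D2| * |D1| * |y - t| ^ 2 := by
      intro n y h1 h2
      have hsub : uIcc t y ⊆ Icc 0 (t + 1) := uIcc_subset_Icc ⟨ht, by linarith⟩ ⟨h1, h2⟩
      have hder : ∀ x ∈ uIcc t y, HasDerivWithinAt
          (fun τ => U n τ m j - ((τ : ℝ) : ℂ) * rhsD (cutg n one) ν lam (U n t) m j)
          (rhsD (cutg n one) ν lam (U n x) m j - rhsD (cutg n one) ν lam (U n t) m j) (uIcc t y) x := by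
        intro x hx
        have h5 := ((hU n).eqn x (hsub hx).1 m hm j).mono
          (hsub.trans Icc_subset_Ici_self)
        have h6 : HasDerivWithinAt (fun τ : ℝ => (τ : ℂ) * rhsD (cutg n one) ν lam (U n t) m j)
            (1 * rhsD (cutg n one) ν lam (U n t) m j) (uIcc t y) x :=
          (Complex.ofRealCLM.hasDerivWithinAt.mul_const _)
        rw [one_mul] at h6
        exact h5.sub h6
      have hbn : ∀ x ∈ uIcc t y, ‖rhsD (cutg n one) ν lam (U n x) m j -
          rhsD (cutg n one) ν lam (U n t) m j‖ ≤ |D2| * |D1| * |y - t| := by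
        intro x hx
        have h7 := hD2 (cutg n one) (hgn n) (U n x) (U n t) (hD n x (hsub hx).1 (hsub hx).2)
          (hD n t ht (by linarith)) (|D1| * |x - t|) (hlip n x (hsub hx).1 (hsub hx).2) j
        have h8 : |x - t| ≤ |y - t| := by
          exact abs_sub_left_of_mem_uIcc hx
        calc _ ≤ D2 * (|D1| * |x - t|) := h7
          _ ≤ |D2| * (|D1| * |y - t|) := by
              gcongr
              exact le_abs_self _
          _ = _ := by ring
      have h9 := (convex_uIcc t y).norm_image_sub_le_of_norm_hasDerivWithin_le hder hbn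
        (x := t) (y := y) left_mem_uIcc right_mem_uIcc
      calc _ = ‖U n y m j - (y : ℂ) * rhsD (cutg n one) ν lam (U n t) m j -
            (U n t m j - (t : ℂ) * rhsD (cutg n one) ν lam (U n t) m j)‖ := by
              congr 1
              push_cast
              ring
        _ ≤ |D2| * |D1| * |y - t| * ‖y - t‖ := h9
        _ = _ := by rw [Real.norm_eq_abs]; ring
    -- convergence of the right-hand side
    have hconv : ∀ j, Tendsto (fun n => conv (cutg n one) (U n t) m j) F
        (𝓝 (conv one (u t) m j)) := by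
      intro j
      unfold conv
      refine tendsto_tsum_of_dominated_convergence
        (bound := fun k => (3 * Cs 3 * Cs 1) * ((1 + nsq k) ^ 3)⁻¹) (hSUM.mul_left _) ?_ ?_
      · intro k
        refine Tendsto.mul (Tendsto.mul ?_ ?_) (hut t ht (m - k) j)
        · refine tendsto_const_nhds.congr' ?_
          filter_upwards [hF (eventually_cub k), hF (eventually_cub (m - k)),
            hF (eventually_cub (-m))] with n h1 h2 h3
          unfold cutg
          rw [if_pos ⟨h1, h2, h3⟩]
        · unfold dt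
          exact tendsto_finsetSum _ fun i _ => (hut t ht k i).mul_const _
      · refine Eventually.of_forall fun n k => ?_
        have hd := hD n t ht (by linarith)
        have hq : 0 < 1 + nsq k := by linarith [nsq_nn k]
        have h1 : ∀ i, ‖U n t k i‖ ≤ Cs 3 * ((1 + nsq k) ^ 3)⁻¹ := by
          intro i
          rw [← div_eq_mul_inv, le_div_iff₀ (by positivity), mul_comm]
          exact hd 3 k i
        have hC3 : 0 ≤ Cs 3 * ((1 + nsq k) ^ 3)⁻¹ := (norm_nonneg _).trans (h1 0)
        have h2 : ∀ i, ‖((m - k) i : ℂ)‖ * ‖U n t (m - k) j‖ ≤ Cs 1 := by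
          intro i
          calc _ ≤ (1 + nsq (m - k)) * ‖U n t (m - k) j‖ :=
                mul_le_mul_of_nonneg_right (coord_le _ i) (norm_nonneg _)
            _ ≤ Cs 1 := by
                have := hd 1 (m - k) j
                rwa [pow_one] at this
        rw [norm_mul, norm_mul, Complex.norm_real, Real.norm_eq_abs]
        calc |cutg n one k (m - k) (-m)| * ‖dt (U n t k) (m - k)‖ * ‖U n t (m - k) j‖
            ≤ 1 * ‖dt (U n t k) (m - k)‖ * ‖U n t (m - k) j‖ := by
              gcongr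
              exact hgn n _ _ _
          _ = ‖dt (U n t k) (m - k)‖ * ‖U n t (m - k) j‖ := by rw [one_mul]
          _ ≤ (∑ i, ‖U n t k i * ((m - k) i : ℂ)‖) * ‖U n t (m - k) j‖ := by
              gcongr
              unfold dt
              exact norm_sum_le _ _
          _ = ∑ i, ‖U n t k i‖ * (‖((m - k) i : ℂ)‖ * ‖U n t (m - k) j‖) := by
              rw [Finset.sum_mul]
              refine Finset.sum_congr rfl fun i _ => ?_
              rw [norm_mul]
              ring
          _ ≤ ∑ _i : Fin 3, (Cs 3 * ((1 + nsq k) ^ 3)⁻¹) * Cs 1 := by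
              refine Finset.sum_le_sum fun i _ => ?_
              exact mul_le_mul (h1 i) (h2 i) (by positivity) hC3
          _ = _ := by
              rw [Finset.sum_const, Finset.card_univ, Fintype.card_fin, nsmul_eq_mul]
              push_cast
              ring
    have hrhs : Tendsto (fun n => rhsD (cutg n one) ν lam (U n t) m j) F
        (𝓝 (rhsD one ν lam (u t) m j)) := by
      unfold rhsD rhs prj
      refine Tendsto.sub ?_ ((hut t ht m j).const_mul _)
      refine ((hut t ht m j).const_mul _).sub (Tendsto.const_mul _ ?_)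
      refine (hconv j).sub ?_
      refine Tendsto.div_const (Tendsto.mul_const _ ?_) _
      unfold dt
      exact tendsto_finsetSum _ fun i _ => (hconv i).mul_const _
    have hfin : ∀ y, 0 ≤ y → y ≤ t + 1 → ‖u y m j - u t m j -
        ((y - t : ℝ) : ℂ) * rhsD one ν lam (u t) m j‖ ≤ |D2| * |D1| * |y - t| ^ 2 := by
      intro y h1 h2
      refine le_of_tendsto ((((hut y h1 m j).sub (hut t ht m j)).sub (hrhs.const_mul _)).norm) ?_
      exact Eventually.of_forall fun n => hsec n y h1 h2
    rw [hasDerivWithinAt_iff_isLittleO]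
    have hO : (fun y => u y m j - u t m j - (y - t) • rhsD one ν lam (u t) m j) =O[𝓝[Ici 0] t]
        fun y => ‖y - t‖ ^ 2 := by
      refine Asymptotics.IsBigO.of_bound (|D2| * |D1|) ?_
      have hev : ∀ᶠ y in 𝓝[Ici 0] t, y ≤ t + 1 := by
        refine mem_nhdsWithin_of_mem_nhds ?_
        exact Iic_mem_nhds (by linarith)
      filter_upwards [hev, self_mem_nhdsWithin] with y h1 h2
      have h3 := hfin y h2 h1
      rw [Real.norm_eq_abs, Real.norm_eq_abs, abs_of_nonneg (by positivity : (0 : ℝ) ≤ |y - t| ^ 2)]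
      rw [Complex.real_smul]
      exact h3
    refine hO.trans_isLittleO ?_
    exact (Asymptotics.isLittleO_pow_sub_sub t (one_lt_two)).mono nhdsWithin_le_nhds

end Pool.Agent.U136.DS
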