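import Pool.Agent.U136.DS.Final

set_option autoImplicit false

/-! Project DS: the criterion for all exponents `τ > 3`. -/

namespace Pool.Agent.U136.DS

open MeasureTheory ProbabilityTheory Pool.Agent.N983.RT

theorem one_le_nsq' {k : Wv} (hk : k ≠ 0) : 1 ≤ nsq k := by
  have : ∃ i, k i ≠ 0 := by
    by_contra h
    push Not at h
    exact hk (funext h)
  obtain ⟨i, hi⟩ := this
  have h1 : (1 : ℝ) ≤ (k i : ℝ) ^ 2 := by
    have : 1 ≤ (k i) ^ 2 := by
      have := sq_nonneg (k i)
      rcases this.lt_or_eq with h | h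
      · omega
      · exact absurd (pow_eq_zero_iff (two_ne_zero)|>.1 h.symm) hi
    exact_mod_cast this
  calc (1 : ℝ) ≤ (k i : ℝ) ^ 2 := h1
    _ ≤ nsq k := by
      unfold nsq
      exact Finset.single_le_sum (f := fun i => (k i : ℝ) ^ 2) (fun i _ => by positivity)
        (Finset.mem_univ i)

theorem deg_mono (lam : Wv → ℝ) (c₁ τ τ' θ B : ℝ) (hc : 0 < c₁) (hτ : τ' ≤ τ)
    (h : Deg lam c₁ τ θ B) : Deg lam c₁ τ' θ B := by
  classical
  intro R hR m hm
  refine le_trans ?_ (h R hR m hm)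
  have hsub : ((cub R).filter fun k => near lam c₁ τ' k (-(k + m)) m ≠ 0) ⊆
      ((cub R).filter fun k => near lam c₁ τ k (-(k + m)) m ≠ 0) := by
    intro k hk
    have hk' := Finset.mem_filter.1 hk
    refine Finset.mem_filter.2 ⟨hk'.1, ?_⟩
    have h1 := hk'.2
    unfold near at h1 ⊢
    split_ifs at h1 with h2
    · rw [if_pos]
      · exact one_ne_zero
      · refine ⟨h2.1, h2.2.1, h2.2.2.1, h2.2.2.2.trans_le ?_⟩
        refine mul_le_mul_of_nonneg_left (Real.rpow_le_rpow_of_exponent_le ?_ (by linarith)) hc.le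
        unfold mx
        exact (one_le_nsq' h2.1).trans (le_max_left _ _)
    · exact absurd rfl h1
  have hle := Finset.card_le_card hsub
  have h3 : (((cub R).filter fun k => near lam c₁ τ' k (-(k + m)) m ≠ 0).card : ℝ) ≤
      (((cub R).filter fun k => near lam c₁ τ k (-(k + m)) m ≠ 0).card : ℝ) := by
    exact_mod_cast hle
  convert h3

/-- few near-resonant triads imply global regularity -/
theorem crit' (lam : Wv → ℝ) (hlam : Disp lam) (c₁ τ θ B : ℝ) (hc : 0 < c₁) (hτ : 3 < τ)
    (hθ' : θ < 2) (hdeg : Deg lam c₁ τ θ B) (ν : ℝ) (hν : 0 < ν) : GWPD ν lam := by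
  classical
  have hB : 0 ≤ B := by
    have h1 := hdeg 1 le_rfl 0 (by
      unfold cub
      rw [Fintype.mem_piFinset]
      intro i
      simp)
    have h2 : (0 : ℝ) ≤ B * ((1 : ℕ) : ℝ) ^ θ := le_trans (Nat.cast_nonneg _) h1
    simpa using h2
  have hdeg' : Deg lam c₁ (min τ (7 / 2)) (max θ 0) B := by
    have h1 := deg_mono lam c₁ τ (min τ (7 / 2)) θ B hc (min_le_left _ _) hdeg
    intro R hR m hm
    refine (h1 R hR m hm).trans (mul_le_mul_of_nonneg_left ?_ hB)
    exact Real.rpow_le_rpow_of_exponent_le (by exact_mod_cast hR) (le_max_left _ _)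
  exact crit ν lam c₁ (min τ (7 / 2)) (max θ 0) B hν hlam hc (lt_min hτ (by norm_num))
    (lt_of_le_of_lt (min_le_right _ _) (by norm_num)) (le_max_right _ _)
    (max_lt hθ' (by norm_num)) hdeg'

end Pool.Agent.U136.DS
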