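import Pool.Agent.N983.RT.Stm2

set_option autoImplicit false

/-!
Project DS: the Navier-Stokes equations on the torus `(ℝ / 2πℤ) ^ 3` with a random dispersive term
of high order. Statements of the parts of the proof.
-/

namespace Pool.Agent.U136.DS

open MeasureTheory ProbabilityTheory Pool.Agent.N983.RT

/-- the coefficients of the Navier-Stokes equations -/
def one (_k _l _m : Wv) : ℝ := 1

/-- the right-hand side with the dispersive term `-i λ_m u_m` -/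
noncomputable def rhsD (g : Wv → Wv → Wv → ℝ) (ν : ℝ) (lam : Wv → ℝ) (u : Fld) (m : Wv)
    (j : Fin 3) : ℂ :=
  rhs g ν 1 u m j - Complex.I * (lam m : ℂ) * u m j

/-- `u` is a smooth solution for all times `t ≥ 0` -/
structure IsSolD (g : Wv → Wv → Wv → ℝ) (ν : ℝ) (lam : Wv → ℝ) (u : ℝ → Fld) : Prop where
  adm : ∀ t, 0 ≤ t → Adm (u t)
  decay : ∀ (T : ℝ) (s : ℕ), ∃ C : ℝ, ∀ t, 0 ≤ t → t ≤ T → ∀ k i, (1 + nsq k) ^ s * ‖u t k i‖ ≤ C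
  eqn : ∀ t, 0 ≤ t → ∀ m, m ≠ 0 → ∀ j,
    HasDerivWithinAt (fun t => u t m j) (rhsD g ν lam (u t) m j) (Set.Ici 0) t

/-- global well-posedness for all smooth data -/
def GWPD (ν : ℝ) (lam : Wv → ℝ) : Prop :=
  ∀ u₀ : Fld, Adm u₀ → Rapid u₀ →
    ∃ u : ℝ → Fld, IsSolD one ν lam u ∧ u 0 = u₀ ∧
      ∀ v : ℝ → Fld, IsSolD one ν lam v → v 0 = u₀ → ∀ t, 0 ≤ t → v t = u t

/-- odd and of polynomial growth -/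
def Disp (lam : Wv → ℝ) : Prop :=
  (∀ k, lam (-k) = -lam k) ∧ ∃ (q : ℕ) (C : ℝ), ∀ k, |lam k| ≤ C * (1 + nsq k) ^ q

/-! Solutions. -/

/-- (ODED) the truncated systems have global solutions -/
def S_ODED : Prop := S_ALG → ∀ (ν : ℝ) (lam : Wv → ℝ) (n : ℕ), 0 < ν → Disp lam →
  ∀ u₀ : Fld, Adm u₀ →
    ∃ u : ℝ → Fld, IsSolD (cutg n one) ν lam u ∧ u 0 = cut n u₀ ∧
      ∀ t, 0 ≤ t → ∀ k, k ∉ cub n → u t k = 0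

/-- (CMPD) passage to the limit -/
def S_CMPD : Prop := S_SUM → S_RHS → ∀ (ν : ℝ) (lam : Wv → ℝ), 0 < ν → Disp lam →
  ∀ u₀ : Fld, Adm u₀ → Rapid u₀ → ∀ U : ℕ → ℝ → Fld, (∀ n, IsSolD (cutg n one) ν lam (U n)) →
  (∀ n, U n 0 = cut n u₀) →
  (∀ (T : ℝ) (s : ℕ), ∃ C : ℝ, ∀ n t, 0 ≤ t → t ≤ T → ∀ k i, (1 + nsq k) ^ s * ‖U n t k i‖ ≤ C) →
    ∃ u : ℝ → Fld, IsSolD one ν lam u ∧ u 0 = u₀

/-- (UNQD) uniqueness -/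
def S_UNQD : Prop := S_SUM → ∀ (ν : ℝ) (lam : Wv → ℝ), 0 < ν → Disp lam →
  ∀ u v : ℝ → Fld, IsSolD one ν lam u → IsSolD one ν lam v → u 0 = v 0 → ∀ t, 0 ≤ t → u t = v t

/-! Sums over triads and quadruples. -/

/-- (S3) sums over triads -/
def S_S3 : Prop := ∀ p η : ℝ, 0 ≤ p → 0 < η → ∃ C : ℝ, 0 ≤ C ∧ ∀ (n : ℕ) (f : Wv → ℝ),
  (∀ k, 0 ≤ f k) → f 0 = 0 → (∀ k, k ∉ cub n → f k = 0) →
    ∑ k ∈ cub n, ∑ l ∈ cub n, mx k l (-(k + l)) ^ (p / 2) * (f k * f l * f (-(k + l))) ≤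
      C * Real.sqrt (∑ k ∈ cub n, f k ^ 2) * ∑ k ∈ cub n, nsq k ^ (p / 2 + 3 / 4 + η) * f k ^ 2

/-- (S4) sums over quadruples -/
def S_S4 : Prop := ∀ p η : ℝ, 0 ≤ p → 0 < η → ∃ C : ℝ, 0 ≤ C ∧ ∀ (n : ℕ) (f : Wv → ℝ),
  (∀ k, 0 ≤ f k) → f 0 = 0 → (∀ k, k ∉ cub n → f k = 0) →
    ∑ a ∈ cub n, ∑ b ∈ cub n, ∑ l ∈ cub n,
        mx (a + b) l (-(a + b + l)) ^ (p / 2) * (f a * f b * f l * f (-(a + b + l))) ≤
      C * (∑ k ∈ cub n, f k ^ 2) * ∑ k ∈ cub n, nsq k ^ (p / 2 + 3 / 2 + η) * f k ^ 2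

/-! The normal form. -/

open Classical in
/-- the near-resonant triads -/
noncomputable def near (lam : Wv → ℝ) (c₁ τ : ℝ) (k l m : Wv) : ℝ :=
  if k ≠ 0 ∧ l ≠ 0 ∧ m ≠ 0 ∧ |lam k + lam l + lam m| < c₁ * mx k l m ^ (τ / 2) then 1 else 0

open Classical in
/-- the other triads -/
noncomputable def far (lam : Wv → ℝ) (c₁ τ : ℝ) (k l m : Wv) : ℝ :=
  if k ≠ 0 ∧ l ≠ 0 ∧ m ≠ 0 ∧ c₁ * mx k l m ^ (τ / 2) ≤ |lam k + lam l + lam m| then 1 else 0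

/-- the coefficients of the normal form -/
noncomputable def hnf (lam : Wv → ℝ) (c₁ τ : ℝ) (k l m : Wv) : ℝ :=
  far lam c₁ τ k l m / (lam k + lam l + lam m)

/-- the derivative of `form` in the direction `R` -/
noncomputable def dform (g : Wv → Wv → Wv → ℝ) (s n : ℕ) (u R : Fld) : ℂ :=
  ∑ i, ∑ j,
    (Tri (fun k l => g k l (-(k + l)) * ((l i : ℝ) * nsq (k + l) ^ s)) n
        (fun k => R k i) (fun k => u k j) (fun k => u k j) +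
      Tri (fun k l => g k l (-(k + l)) * ((l i : ℝ) * nsq (k + l) ^ s)) n
        (fun k => u k i) (fun k => R k j) (fun k => u k j) +
      Tri (fun k l => g k l (-(k + l)) * ((l i : ℝ) * nsq (k + l) ^ s)) n
        (fun k => u k i) (fun k => u k j) (fun k => R k j))

/-- (QB) the correction of the Sobolev norms is small -/
def S_QB : Prop := S_S3 → ∀ (lam : Wv → ℝ) (c₁ τ : ℝ), 0 < c₁ → 3 < τ → τ < 4 →
  ∀ s : ℕ, 2 ≤ s → ∀ M ε : ℝ, 0 < ε → ∃ C : ℝ, ∀ (n : ℕ) (u : Fld), Adm u →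
    (∀ k, k ∉ cub n → u k = 0) → En 0 n u ≤ M → ‖form (hnf lam c₁ τ) s n u‖ ≤ ε * En s n u + C

/-- (RB) the remainder of the normal form -/
def S_RB : Prop := S_S3 → S_S4 → ∀ (lam : Wv → ℝ) (c₁ τ ν : ℝ), 0 < c₁ → 3 < τ → τ < 4 → 0 < ν →
  ∀ s : ℕ, 2 ≤ s → ∀ M ε : ℝ, 0 < ε → ∃ C : ℝ, ∀ (n : ℕ) (u : Fld), Adm u →
    (∀ k, k ∉ cub n → u k = 0) → En 0 n u ≤ M →
      ‖dform (hnf lam c₁ τ) s n u (rhs (cutg n one) ν 1 u)‖ ≤ ε * Er ((s : ℝ) + 1) n u + C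

/-- (DQ) the derivative of the correction -/
def S_DQ : Prop := ∀ (lam : Wv → ℝ) (c₁ τ ν : ℝ), 0 < c₁ → ∀ (s n : ℕ) (u : ℝ → Fld),
  IsSolD (cutg n one) ν lam u → (∀ t, 0 ≤ t → ∀ k, k ∉ cub n → u t k = 0) → ∀ t, 0 ≤ t →
    HasDerivWithinAt (fun t => form (hnf lam c₁ τ) s n (u t))
      (-Complex.I * form (far lam c₁ τ) s n (u t) +
        dform (hnf lam c₁ τ) s n (u t) (rhs (cutg n one) ν 1 (u t))) (Set.Ici 0) t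

open Classical in
/-- every wave vector is in few near-resonant triads -/
def Deg (lam : Wv → ℝ) (c₁ τ θ B : ℝ) : Prop := ∀ R : ℕ, 1 ≤ R → ∀ m ∈ cub R,
  (((cub R).filter fun k => near lam c₁ τ k (-(k + m)) m ≠ 0).card : ℝ) ≤ B * (R : ℝ) ^ θ

/-- (NB) the near-resonant triads -/
def S_NB : Prop := S_EST → ∀ (lam : Wv → ℝ) (c₁ τ θ B : ℝ), 0 < c₁ → Disp lam → 0 ≤ θ → θ < 2 →
  Deg lam c₁ τ θ B → ∀ s : ℕ, ∀ M ε : ℝ, 0 < ε → ∃ C : ℝ, ∀ (n : ℕ) (u : Fld), Adm u →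
    (∀ k, k ∉ cub n → u k = 0) → En 0 n u ≤ M →
      ‖form (near lam c₁ τ) s n u‖ ≤ ε * Er ((s : ℝ) + 1) n u + C

/-- (APRD) a priori bounds for the truncated systems -/
def S_APRD : Prop := S_SUM → S_ALG → ∀ (ν : ℝ) (lam : Wv → ℝ) (c₁ τ : ℝ), 0 < ν → Disp lam →
  0 < c₁ →
  -- QB, RB, NB and DQ for `lam`
  (∀ s : ℕ, 2 ≤ s → ∀ M ε : ℝ, 0 < ε → ∃ C : ℝ, ∀ (n : ℕ) (u : Fld), Adm u →
    (∀ k, k ∉ cub n → u k = 0) → En 0 n u ≤ M →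
      ‖form (hnf lam c₁ τ) s n u‖ ≤ ε * En s n u + C ∧
      ‖dform (hnf lam c₁ τ) s n u (rhs (cutg n one) ν 1 u)‖ ≤ ε * Er ((s : ℝ) + 1) n u + C ∧
      ‖form (near lam c₁ τ) s n u‖ ≤ ε * Er ((s : ℝ) + 1) n u + C) →
  S_DQ →
  ∀ u₀ : Fld, Adm u₀ → Rapid u₀ → ∀ (s : ℕ) (T : ℝ), ∃ C : ℝ, ∀ (n : ℕ) (u : ℝ → Fld),
    IsSolD (cutg n one) ν lam u → u 0 = cut n u₀ → (∀ t, 0 ≤ t → ∀ k, k ∉ cub n → u t k = 0) →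
      ∀ t, 0 ≤ t → t ≤ T → En s n (u t) ≤ C

/-! Random dispersion. -/

/-- the dispersion `e_k |k| ^ σ Z_k`, `e` odd with values `±1`, `Z` even -/
noncomputable def rlam {Ω : Type} (σ : ℝ) (e : Wv → ℝ) (Z : Sym2 Wv → Ω → ℝ) (ω : Ω) (k : Wv) : ℝ :=
  e k * nsq k ^ (σ / 2) * Z s(k, -k) ω

/-- odd with values `±1` -/
def Sgn (e : Wv → ℝ) : Prop := ∀ k, k ≠ 0 → e (-k) = -e k ∧ |e k| = 1

/-- bounded densities -/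
def Dens {Ω : Type} [MeasurableSpace Ω] (μ : Measure Ω) (Z : Sym2 Wv → Ω → ℝ) (D : ℝ) : Prop :=
  ∀ c, ∀ x h : ℝ, 0 ≤ h → μ {ω | x ≤ Z c ω ∧ Z c ω ≤ x + h} ≤ ENNReal.ofReal (D * h)

/-- the variables of the triad `k, -(k + m), m` other than that of `m` -/
def vr (m k : Wv) : Finset (Sym2 Wv) := {s(k, -k), s(k + m, -(k + m))}

/-- (IND2) many independent events -/
def S_IND2 : Prop := ∀ (A : Finset Wv) (m : Wv), m ≠ 0 → (∀ k ∈ A, k ≠ 0 ∧ k ≠ -m) → ∀ s : ℕ,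
  9 * s + 9 ≤ A.card → ∃ T ⊆ A, T.card = s ∧
    (∀ k ∈ T, (vr m k).card = 2 ∧ s(m, -m) ∉ vr m k) ∧
    ∀ k ∈ T, ∀ k' ∈ T, k ≠ k' → Disjoint (vr m k) (vr m k')

/-- (PRB) the probability that all triads of a family are near-resonant -/
def S_PRB : Prop := ∀ (D σ τ : ℝ), 0 ≤ D → 0 < σ → 0 < τ → τ < σ →
  ∀ (Ω : Type) [MeasurableSpace Ω] (μ : Measure Ω) [IsProbabilityMeasure μ]
  (Z : Sym2 Wv → Ω → ℝ) (e : Wv → ℝ), (∀ c, Measurable (Z c)) → iIndepFun Z μ → Sgn e →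
  Dens μ Z D → ∀ (m : Wv) (T : Finset Wv), m ≠ 0 → (∀ k ∈ T, k ≠ 0 ∧ k ≠ -m) →
  (∀ k ∈ T, (vr m k).card = 2 ∧ s(m, -m) ∉ vr m k) →
  (∀ k ∈ T, ∀ k' ∈ T, k ≠ k' → Disjoint (vr m k) (vr m k')) →
    μ {ω | ∀ k ∈ T, near (rlam σ e Z ω) 1 τ k (-(k + m)) m ≠ 0} ≤
      ENNReal.ofReal (∏ k ∈ T, 2 * D * 2 ^ σ * nsq k ^ ((τ - σ) / 2))

/-- (LAT2) a lattice sum -/
def S_LAT2 : Prop := ∀ b θ : ℝ, 0 < b → 0 < θ → 3 - b < θ → ∃ C : ℝ, 0 ≤ C ∧ ∀ R : ℕ, 1 ≤ R →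
  ∑ k ∈ cub R, (if k = 0 then 0 else nsq k ^ (-b / 2)) ≤ C * (R : ℝ) ^ θ

open Classical in
/-- (TLD) the tail of the number of near-resonant triads of `m` -/
def S_TLD : Prop := S_IND2 → S_PRB → S_ESY → ∀ (D σ τ : ℝ), 0 ≤ D → 0 < σ → 0 < τ → τ < σ →
  ∀ (Ω : Type) [MeasurableSpace Ω] (μ : Measure Ω) [IsProbabilityMeasure μ]
  (Z : Sym2 Wv → Ω → ℝ) (e : Wv → ℝ), (∀ c, Measurable (Z c)) → iIndepFun Z μ → Sgn e →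
  Dens μ Z D → ∀ (R : ℕ) (m : Wv), m ≠ 0 → ∀ s : ℕ,
    μ {ω | 9 * s + 9 ≤ ((cub R).filter fun k => near (rlam σ e Z ω) 1 τ k (-(k + m)) m ≠ 0).card} ≤
      ENNReal.ofReal ((∑ k ∈ cub R, 2 * D * 2 ^ σ * (if k = 0 then 0 else nsq k ^ ((τ - σ) / 2))) ^ s
        / s.factorial)

/-- (DEG) almost surely all degrees are small -/
def S_DEG : Prop := S_IND2 → S_PRB → S_ESY → S_LAT2 → S_TLD → ∀ (D σ τ θ : ℝ), 0 ≤ D → 0 < σ →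
  0 < τ → τ < σ → 0 < θ → 3 + τ - σ < θ →
  ∀ (Ω : Type) [MeasurableSpace Ω] (μ : Measure Ω) [IsProbabilityMeasure μ]
  (Z : Sym2 Wv → Ω → ℝ) (e : Wv → ℝ), (∀ c, Measurable (Z c)) → iIndepFun Z μ → Sgn e →
  Dens μ Z D → ∀ᵐ ω ∂μ, ∃ B : ℝ, Deg (rlam σ e Z ω) 1 τ θ B

end Pool.Agent.U136.DS
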