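import Pool.Agent.U136.DS.Asm
import Pool.Agent.U136.RT.Final
import Pool.Agent.U136.DS.CMPD
import Pool.Agent.U97.DS.ODED
import Pool.Agent.U643.DS.DQ
import Pool.Agent.U394.DS.TLD
import Pool.Agent.U94.DS.LAT2
import Pool.Agent.U84.DS.IND2
import Pool.Agent.U736.DS.DEG
import Pool.Agent.U208.DS.UNQD
import Pool.Agent.U451.DS.QB
import Pool.Agent.U103.DS.PRB
import Pool.Agent.U338.DS.NB
import Pool.Agent.U741.DS.APRD
import Pool.Agent.U401.DS.S3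
import Pool.Agent.U460.DS.S4
import Pool.Agent.U692.DS.RB

set_option autoImplicit false

/-!
Project DS: the parts are put together. Parts: ODED (helper97), DQ (helper643), TLD (helper394),
LAT2 (helper94), IND2 (helper84), DEG (helper736), UNQD (helper208), QB (helper451), PRB
(helper103), NB (helper338), APRD (helper741), S3 (helper401), S4 (helper460), RB (helper692),
CMPD (helper136); ALG, EST, SHL from Pool/Agent/N983/RT in the starting library; SUM (helper448),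
RHS (helper913), ESY (helper884) from project RT.
-/

namespace Pool.Agent.U136.DS

open MeasureTheory ProbabilityTheory Pool.Agent.N983.RT

/-- the deterministic criterion -/
theorem crit (ν : ℝ) (lam : Wv → ℝ) (c₁ τ θ B : ℝ) (hν : 0 < ν)
    (hlam : Disp lam) (hc : 0 < c₁) (hτ : 3 < τ) (hτ' : τ < 4) (hθ : 0 ≤ θ) (hθ' : θ < 2)
    (hdeg : Deg lam c₁ τ θ B) : GWPD ν lam :=
  critD Pool.Agent.U448.RT.t_SUM t_ALG Pool.Agent.U136.RT.t_EST' Pool.Agent.U913.RT.t_RHS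
    Pool.Agent.U97.DS.t_ODED t_CMPD Pool.Agent.U208.DS.t_UNQD Pool.Agent.U401.DS.t_S3
    Pool.Agent.U460.DS.t_S4 Pool.Agent.U451.DS.t_QB Pool.Agent.U692.DS.t_RB t_DQ
    Pool.Agent.U338.DS.t_NB Pool.Agent.U741.DS.t_APRD ν lam c₁ τ θ B hν hlam hc hτ hτ' hθ hθ' hdeg

/-- random dispersion -/
theorem rand (σ : ℝ) (hσ : 4 < σ)
    (Ω : Type) [MeasurableSpace Ω] (μ : Measure Ω) [IsProbabilityMeasure μ]
    (Z : Sym2 Wv → Ω → ℝ) (e : Wv → ℝ) (hZ : ∀ c, Measurable (Z c)) (hi : iIndepFun Z μ)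
    (he : Sgn e) (D D' : ℝ) (hD : Dens μ Z D) (hb : ∀ c, ∀ᵐ ω ∂μ, |Z c ω| ≤ D') :
    ∀ᵐ ω ∂μ, ∀ ν ε : ℝ, 0 < ν → ε ≠ 0 → GWPD ν (fun k => ε * rlam σ e Z ω k) :=
  asmD Pool.Agent.U448.RT.t_SUM t_ALG Pool.Agent.U136.RT.t_EST' Pool.Agent.U913.RT.t_RHS
    Pool.Agent.U97.DS.t_ODED t_CMPD Pool.Agent.U208.DS.t_UNQD Pool.Agent.U401.DS.t_S3
    Pool.Agent.U460.DS.t_S4 Pool.Agent.U451.DS.t_QB Pool.Agent.U692.DS.t_RB t_DQ
    Pool.Agent.U338.DS.t_NB Pool.Agent.U741.DS.t_APRD Pool.Agent.U84.DS.t_IND2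
    Pool.Agent.U103.DS.t_PRB U884RT.t_ESY Pool.Agent.U94.DS.t_LAT2 Pool.Agent.U394.DS.t_TLD t_DEG
    σ hσ Ω μ Z e hZ hi he D D' hD hb

end Pool.Agent.U136.DS
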