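import Pool.Agent.U136.DS.GenStm
import Pool.Agent.U136.DS.Crit
import Pool.Agent.U29.EU.Asm

set_option autoImplicit false

/-! Project DS: generic differential operators of odd order `d ≥ 9`, the assembly. -/

namespace Pool.Agent.U136.DS

open MeasureTheory Pool.Agent.N983.RT Pool.Agent.U29.EU

theorem near_smul (lam : Wv → ℝ) (ε τ : ℝ) (hε : ε ≠ 0) (k l m : Wv) :
    near (fun k => ε * lam k) |ε| τ k l m = near lam 1 τ k l m := by
  have h0 : 0 < |ε| := abs_pos.2 hε
  unfold near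
  have e1 : (|ε * lam k + ε * lam l + ε * lam m| < |ε| * mx k l m ^ (τ / 2)) =
      (|lam k + lam l + lam m| < 1 * mx k l m ^ (τ / 2)) := by
    rw [show ε * lam k + ε * lam l + ε * lam m = ε * (lam k + lam l + lam m) by ring, abs_mul,
      one_mul]
    exact propext (mul_lt_mul_iff_right₀ h0)
  simp only [e1]

theorem deg_smul' (lam : Wv → ℝ) (ε τ θ B : ℝ) (hε : ε ≠ 0) (h : Deg lam 1 τ θ B) :
    Deg (fun k => ε * lam k) |ε| τ θ B := by
  classical
  intro R hR m hm
  have h1 := h R hR m hm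
  simp only [near_smul lam ε τ hε]
  convert h1

/-- generic differential operators of odd order `d ≥ 9` -/
theorem gen (hSLAB : S_SLAB) (hVEC : S_VEC) (hCNT : S_CNT) (hAED : S_AED) (d : ℕ) (hd : Odd d)
    (h9 : 9 ≤ d) (lam : Wv → ℝ) (hlam : Disp lam) :
    ∀ᵐ c : Mi d → ℝ, ∀ ν ε : ℝ, 0 < ν → ε ≠ 0 → GWPD ν (fun k => ε * (lam k + pol c k)) := by
  have h9' : (9 : ℝ) ≤ d := by exact_mod_cast h9
  filter_upwards [hAED hSLAB hVEC hCNT d hd (by omega) lam 1 (7 / 2) (7 / 4) (by norm_num)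
    (by linarith)] with c hc
  intro ν ε hν hε
  obtain ⟨B, hB⟩ := hc
  exact crit' _ (disp_smul' _ ε (disp_add _ _ hlam (disp_pol hd c))) |ε| (7 / 2) (7 / 4) B
    (abs_pos.2 hε) (by norm_num) (by norm_num) (deg_smul' _ ε _ _ B hε hB) ν hν

end Pool.Agent.U136.DS
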