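import Pool.Agent.U29.EU.Stm

set_option autoImplicit false

/-! Project DS: generic differential operators of odd order. Statement of the probabilistic part
(compare `Pool.Agent.U29.EU.S_AE`). -/

namespace Pool.Agent.U136.DS

open MeasureTheory Pool.Agent.N983.RT

/-- (AED) for almost all polynomials of degree `d` all degrees of near-resonance are small -/
def S_AED : Prop := Pool.Agent.U29.EU.S_SLAB → Pool.Agent.U29.EU.S_VEC → Pool.Agent.U29.EU.S_CNT →
  ∀ d : ℕ, Odd d → 3 ≤ d → ∀ lam : Wv → ℝ, ∀ c₁ τ θ : ℝ, 0 ≤ θ → τ - θ < (d : ℝ) - 7 →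
    ∀ᵐ c : Pool.Agent.U29.EU.Mi d → ℝ, ∃ B : ℝ,
      Deg (fun k => lam k + Pool.Agent.U29.EU.pol c k) c₁ τ θ B

end Pool.Agent.U136.DS
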